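import Pool.Agent.Q139.TC.Stmts
import Pool.Agent.Q139.TC.TPt
import Pool.Agent.Q139.TC.TSum
import Pool.Agent.Q139.TC.TEdge
import Pool.Agent.Q139.TC.TWall
import Pool.Agent.Q139.TC.TDir
import Pool.Agent.Q139.TC.TExit
import Pool.Agent.Q139.TC.TTwo
import Pool.Agent.Q139.TC.TUnion
import Pool.Agent.Q139.TC.TStar
import Pool.Agent.Q139.TC.TOpen
import Pool.Agent.Q139.TC.TA1
import Pool.Agent.Q139.TC.TA2
import Pool.Agent.Q139.TC.TA3
import Pool.Agent.Q139.TC.TAU
import Pool.Agent.Q139.TC.TN1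
import Pool.Agent.Q139.TC.TN2
import Pool.Agent.Q139.TC.TM1
import Pool.Agent.Q139.TC.TM2
import Pool.Agent.Q139.TC.TM3
import Pool.Agent.Q139.TC.TM4
import Pool.Agent.Q139.TC.TCov
import Pool.Agent.Q139.TC.TSC
import Pool.Agent.Q139.TC.TPlane
import Pool.Agent.Q139.TC.TPl
import Pool.Agent.Q291.LC.Wind

/-!
# A two-convex open set which is not Lefschetz-two-convex

Singular chains are defined in `Pool/Agent/Q291/LC/Chain.lean`: `Spx n` is the standard simplex,
`Chain n X` the group of integral singular `n`-chains, `bd` the boundary, `push f` the chain map of a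
continuous map.  The set and its properties are those of the files `Pool/Agent/Q139/TC`.
-/

set_option autoImplicit false

open Set Topology Pool.Agent.Q291.LC

namespace Pool.Agent.Results.MP_e72e80_gt.NotLefschetz

/-- `k`-convexity: if all facets but one of a `(k + 1)`-simplex lie in `Ω` then so does the simplex.
The facet opposite to the vertex `v j` is the convex hull of the other vertices. -/
def KConvex (k : ℕ) {V : Type} [AddCommGroup V] [Module ℝ V] (Ω : Set V) : Prop :=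
  ∀ v : Fin (k + 2) → V, AffineIndependent ℝ v → ∀ j₀ : Fin (k + 2),
    (∀ j, j ≠ j₀ → convexHull ℝ (v '' {j}ᶜ) ⊆ Ω) → convexHull ℝ (Set.range v) ⊆ Ω

/-- The map `H_{n+1}(X) → H_{n+1}(Y)` of a continuous map is injective: a cycle of `X` whose image is
a boundary is a boundary. -/
def InjH (n : ℕ) {X Y : Type} [TopologicalSpace X] [TopologicalSpace Y] (f : C(X, Y)) : Prop :=
  ∀ c : Chain (n + 1) X, bd c = 0 → (∃ b : Chain (n + 2) Y, bd b = push f c) →
    ∃ b : Chain (n + 2) X, bd b = c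

/-- Lefschetz-`(n + 2)`-convexity: for every affine subspace `A` of dimension `n + 2` the map
`H_{n+1}(Ω ∩ A) → H_{n+1}(Ω)` is injective. -/
def Lefschetz (n : ℕ) {m : ℕ} (Ω : Set (EuclideanSpace ℝ (Fin m))) : Prop :=
  ∀ A : AffineSubspace ℝ (EuclideanSpace ℝ (Fin m)), (A : Set (EuclideanSpace ℝ (Fin m))).Nonempty →
    Module.finrank ℝ A.direction = n + 2 →
    InjH n (⟨Set.inclusion (Set.inter_subset_left : Ω ∩ A ⊆ Ω), by fun_prop⟩ : C(↑(Ω ∩ A), ↑Ω))

open Pool.Agent.Q139.TC in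
theorem core (hsc : IsSimplyConnected Om) (hplane : TPlane) (hpl : TPl) : ¬ Lefschetz 0 Om := by
  intro hL
  obtain ⟨P, hP, hPr⟩ := hplane
  have hne : (P : Set E).Nonempty := by rw [hPr]; exact ⟨pl 0, 0, rfl⟩
  have hinj := hL P hne hP
  -- the complex coordinate
  let ψ : C(↑(Om ∩ (P : Set E)), ℂ) :=
    ⟨fun p => ((p.1 3 : ℝ) : ℂ) + ((p.1 4 : ℝ) : ℂ) * Complex.I, by fun_prop⟩
  have hψ : ∀ (z : ℂ) (h : pl z ∈ Om ∩ (P : Set E)), ψ ⟨pl z, h⟩ = z := by
    intro z h
    show (((pl z) 3 : ℝ) : ℂ) + (((pl z) 4 : ℝ) : ℂ) * Complex.I = z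
    have h3 : (pl z) 3 = z.re := by simp [pl]
    have h4 : (pl z) 4 = z.im := by simp [pl]
    rw [h3, h4]
    exact Complex.re_add_im z
  have hψ0 : ∀ x, ψ x ≠ 0 := by
    rintro ⟨p, hp⟩
    have hp2 : p ∈ Set.range pl := by rw [← hPr]; exact hp.2
    obtain ⟨z, rfl⟩ := hp2
    rw [hψ]
    exact (hpl.2 z).1 hp.1
  -- the loop
  have hmem : ∀ z : ℂ, z ≠ 0 → pl z ∈ Om ∩ (P : Set E) := fun z hz =>
    ⟨(hpl.2 z).2 hz, by rw [hPr]; exact ⟨z, rfl⟩⟩
  let base : ↑(Om ∩ (P : Set E)) := ⟨pl 1, hmem 1 one_ne_zero⟩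
  let γ : Path base base :=
    { toFun := fun s => ⟨pl (Complex.exp (2 * Real.pi * (s : ℝ) * Complex.I)),
        hmem _ (Complex.exp_ne_zero _)⟩
      continuous_toFun := by
        refine Continuous.subtype_mk ?_ _
        refine hpl.1.continuous.comp ?_
        fun_prop
      source' := by
        apply Subtype.ext
        show pl _ = pl 1
        simp
      target' := by
        apply Subtype.ext
        show pl _ = pl 1
        simp [Complex.exp_two_pi_mul_I] }
  have hγ : ∀ s : unitInterval, ψ (γ s) = Complex.exp (2 * Real.pi * (s : ℝ) * Complex.I) :=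
    fun s => hψ _ _
  have : SimplyConnectedSpace Om := hsc
  let ι : C(↑(Om ∩ (P : Set E)), ↑Om) :=
    ⟨Set.inclusion (Set.inter_subset_left : Om ∩ (P : Set E) ⊆ Om), by fun_prop⟩
  obtain ⟨b, hb⟩ := isBoundary (γ.map ι.continuous)
  obtain ⟨b', hb'⟩ := hinj (Finsupp.single (sx γ) 1) (cycle γ) ⟨b, by
    rw [hb]
    unfold push
    rw [Finsupp.sum_single_index (by simp)]
    rfl⟩
  exact not_boundary ψ hψ0 γ hγ b' hb'

open Pool.Agent.Q139.TC in
/-- **There is a two-convex open set in `ℝ⁵` which is not Lefschetz-two-convex.** -/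
theorem result : ∃ Ω : Set (EuclideanSpace ℝ (Fin 5)), IsOpen Ω ∧ KConvex 2 Ω ∧
    IsSimplyConnected Ω ∧ ¬ Lefschetz 0 Ω := by
  have hO : TOpen := TOpen.main
  have hS : TStar := TStar.main
  have hU : TUnion := TUnion.main
  have hA : TAU := TAU.main hU hS hO (TA1.main TPt.main) TA2.main TA3.main
  have hsc : TSC := TSC.main hU hS hO hA TN1.main TN2.main TM3.main (TM4.main TM1.main TM2.main)
    TCov.main
  have htwo : TTwo := TTwo.main (TWall.main TEdge.main) TDir.main TExit.main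
  exact ⟨Om, hO.1, htwo, hsc, core hsc TPlane.main TPl.main⟩

end Pool.Agent.Results.MP_e72e80_gt.NotLefschetz
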